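import Pool.Agent.H15.IX.TF

/-!
# Board idx_modules, row CYC: zero-cycles over `k((t))`
-/

set_option autoImplicit false

open Finset Pool.Agent.H15.IX
open MvPolynomial Pool.Agent.H13.RE Pool.Agent.H17.IQ

namespace Pool.Agent.H86.IX.CYC

universe u

/-- degree of a cycle -/
noncomputable def deg {α : Type*} : (α →₀ ℤ) →+ ℤ :=
  Finsupp.liftAddHom fun _ => AddMonoidHom.id ℤ

lemma deg_eq {α : Type*} (z : α →₀ ℤ) : deg z = z.sum fun _ a => a := rfl

lemma deg_pt {k : Type u} [Field k] {n : ℕ} (E : IntermediateField k (AlgebraicClosure k))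
    [FiniteDimensional k E] (P : Fin (n + 1) → E) (hP : P ≠ 0) :
    deg (pt E P hP) = Fintype.card (E →ₐ[k] AlgebraicClosure k) := by
  unfold pt
  rw [map_sum]
  have : ∀ (q : PP (AlgebraicClosure k) n), deg (Finsupp.single q (1 : ℤ)) = 1 := by
    intro q
    rw [deg, Finsupp.liftAddHom_apply_single]
    rfl
  simp only [this]
  rw [Finset.sum_const, Finset.card_univ, nsmul_eq_mul, mul_one]

/-- transport of R-equivalence along a homomorphism of fields -/
theorem re_map {A B : Type u} [Field A] [Field B] {N m : ℕ} (φ : A →+* B)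
    (f : Fin m → MvPolynomial (Fin N) A) {x y : Fin N → A} (h : RE [] f x y) :
    RE [] (fun l => MvPolynomial.map φ (f l)) (fun v => φ (x v)) (fun v => φ (y v)) := by
  have hpt : ∀ a : Fin N → A, Pt [] f a →
      Pt [] (fun l => MvPolynomial.map φ (f l)) (fun v => φ (a v)) := by
    intro a ha
    refine ⟨?_, fun l hl => absurd hl List.not_mem_nil, fun i => ?_⟩
    · intro h0
      apply ha.1
      funext j
      apply φ.injective
      rw [Pi.zero_apply, map_zero]
      exact congrFun h0 j
    · have h1 := MvPolynomial.map_eval φ a (f i)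
      rw [ha.2.2 i, map_zero] at h1
      exact h1.symm
  have hlk : ∀ a b : Fin N → A, Lk [] f a b →
      Lk [] (fun l => MvPolynomial.map φ (f l)) (fun v => φ (a v)) (fun v => φ (b v)) := by
    rintro a b ⟨c, -, hc, ⟨s, hs0, hs⟩, ⟨t, ht0, ht⟩⟩
    refine ⟨fun j => (c j).map φ, fun l hl => absurd hl List.not_mem_nil, fun i => ?_,
      ⟨φ s, ?_, ?_⟩, ⟨φ t, ?_, ?_⟩⟩
    · have h1 : (Polynomial.mapRingHom φ) (aeval c (f i)) = 0 := by rw [hc i, map_zero]
      rw [aeval_def, eval₂_map, ← h1, aeval_def, MvPolynomial.hom_eval₂]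
      congr 1
      apply RingHom.ext
      intro a
      simp
    · intro h0
      exact hs0 (φ.injective (h0.trans (map_zero φ).symm))
    · funext j
      have h1 := congrArg φ (congrFun hs j)
      rw [Pi.smul_apply, smul_eq_mul, map_mul] at h1
      rw [Pi.smul_apply, smul_eq_mul, ← h1, Polynomial.eval_zero_map]
    · intro h0
      exact ht0 (φ.injective (h0.trans (map_zero φ).symm))
    · funext j
      have h1 := congrArg φ (congrFun ht j)
      rw [Pi.smul_apply, smul_eq_mul, map_mul] at h1
      rw [Pi.smul_apply, smul_eq_mul, ← h1, Polynomial.eval_one_map]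
  unfold RE at h ⊢
  induction h with
  | rel a b hab => exact Relation.EqvGen.rel _ _ ⟨hpt a hab.1, hpt b hab.2.1, hlk a b hab.2.2⟩
  | refl a => exact Relation.EqvGen.refl _
  | symm a b _ ih => exact Relation.EqvGen.symm _ _ ih
  | trans a b c _ _ ih1 ih2 => exact Relation.EqvGen.trans _ _ _ ih1 ih2

theorem pt_mul {K : Type u} [Field K] [CharZero K] {n : ℕ}
    (E : IntermediateField K (AlgebraicClosure K)) [FiniteDimensional K E] (K' : Type u) [Field K']
    [Algebra K K'] [Algebra E K'] [IsScalarTower K E K'] [FiniteDimensional E K']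
    (E' : IntermediateField K (AlgebraicClosure K)) [FiniteDimensional K E'] (φ : K' ≃ₐ[K] E')
    (P : Fin (n + 1) → E) (hP : P ≠ 0)
    (hP' : (fun j => φ (algebraMap E K' (P j))) ≠ 0) :
    pt E' (fun j => φ (algebraMap E K' (P j))) hP' = Module.finrank E K' • pt E P hP := by
  classical
  have : FiniteDimensional K K' := Module.Finite.trans E K'
  rw [pt_eq, pt_eq]
  let _ : ∀ σ : E →ₐ[K] AlgebraicClosure K,
      Fintype (@AlgHom E K' (AlgebraicClosure K) _ _ _ _ σ.toRingHom.toAlgebra) := fun σ => by
    let _ : Algebra E (AlgebraicClosure K) := σ.toRingHom.toAlgebra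
    exact inferInstance
  have hcard : ∀ σ : E →ₐ[K] AlgebraicClosure K,
      Fintype.card (@AlgHom E K' (AlgebraicClosure K) _ _ _ _ σ.toRingHom.toAlgebra) =
        Module.finrank E K' := by
    intro σ
    let _ : Algebra E (AlgebraicClosure K) := σ.toRingHom.toAlgebra
    have h1 := AlgHom.card E K' (AlgebraicClosure K)
    rw [← h1]
  let e1 : (E' →ₐ[K] AlgebraicClosure K) ≃ (K' →ₐ[K] AlgebraicClosure K) :=
    AlgEquiv.arrowCongr φ.symm AlgEquiv.refl
  let e2 := algHomEquivSigma (A := K) (B := E) (C := K') (D := AlgebraicClosure K)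
  have h1 : ∑ σ' : E' →ₐ[K] AlgebraicClosure K, cj σ' (fun j => φ (algebraMap E K' (P j))) hP' =
      ∑ s : (Σ σ : E →ₐ[K] AlgebraicClosure K,
        @AlgHom E K' (AlgebraicClosure K) _ _ _ _ σ.toRingHom.toAlgebra), cj s.1 P hP := by
    refine Fintype.sum_equiv (e1.trans e2) _ _ fun σ' => ?_
    rfl
  rw [h1, Fintype.sum_sigma, Finset.smul_sum]
  refine Finset.sum_congr rfl fun σ _ => ?_
  refine (Finset.sum_const (cj σ P hP)).trans ?_
  rw [Finset.card_univ, hcard]

theorem one_mem (J : AddSubgroup ℤ) (h : ∀ p : ℕ, p.Prime → ∃ m : ℕ, ¬ p ∣ m ∧ (m : ℤ) ∈ J) :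
    (1 : ℤ) ∈ J := by
  obtain ⟨g, hg⟩ := Int.subgroup_cyclic J
  by_cases h1 : g.natAbs = 1
  · rw [hg, AddSubgroup.mem_closure_singleton]
    rcases Int.natAbs_eq g with h2 | h2
    · exact ⟨1, by rw [h2, h1]; simp⟩
    · exact ⟨-1, by rw [h2, h1]; simp⟩
  · exfalso
    obtain ⟨p, hp, hpg⟩ := Nat.exists_prime_and_dvd h1
    obtain ⟨m, hm, hmJ⟩ := h p hp
    rw [hg, AddSubgroup.mem_closure_singleton] at hmJ
    obtain ⟨c, hc⟩ := hmJ
    apply hm
    have h2 : (p : ℤ) ∣ (m : ℤ) := by
      rw [← hc, smul_eq_mul]
      exact Dvd.dvd.mul_left (Int.natCast_dvd.mpr hpg) c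
    exact_mod_cast h2

end Pool.Agent.H86.IX.CYC

namespace Pool.Agent.H86.IX

universe u

theorem pf_CYC (hCOF : T_COF.{u}) (hPUI : T_PUI.{u}) : T_CYC.{u} := by
  classical
  intro k _ _ _ n s d F y hd hF hdn hy0 hy
  have hch : CharZero (LaurentSeries k) :=
    charZero_of_injective_algebraMap (algebraMap k (LaurentSeries k)).injective
  have hyK : (fun j => algebraMap (LaurentSeries k) (AlgebraicClosure (LaurentSeries k)) (y j))
      ≠ 0 := by
    intro h
    apply hy0
    funext j
    apply (algebraMap (LaurentSeries k) (AlgebraicClosure (LaurentSeries k))).injective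
    exact (congrFun h j).trans
      (map_zero (algebraMap (LaurentSeries k) (AlgebraicClosure (LaurentSeries k)))).symm
  set q₀ : PP (AlgebraicClosure (LaurentSeries k)) n := Projectivization.mk _ _ hyK with hq₀
  -- every point is equivalent to a multiple of the base point
  have key : ∀ z ∈ Cycles F, z - CYC.deg z • Finsupp.single q₀ (1 : ℤ) ∈ Rat F := by
    intro z hz
    unfold Cycles at hz
    induction hz using AddSubgroup.closure_induction with
    | mem z hz =>
      obtain ⟨E, hE, P, hP0, hP, rfl⟩ := hz
      have hyE : (fun j => algebraMap (LaurentSeries k) E (y j)) ≠ 0 := by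
        intro h
        apply hy0
        funext j
        apply (algebraMap (LaurentSeries k) E).injective
        exact (congrFun h j).trans (map_zero (algebraMap (LaurentSeries k) E)).symm
      have e1 : CYC.deg (pt E P hP0) • Finsupp.single q₀ (1 : ℤ) =
          pt E (fun j => algebraMap (LaurentSeries k) E (y j)) hyE := by
        rw [CYC.deg_pt]
        unfold pt
        rw [natCast_zsmul, ← Finset.card_univ, ← Finset.sum_const]
        refine Finset.sum_congr rfl fun σ _ => ?_
        congr 1
        rw [hq₀]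
        refine (Projectivization.mk_eq_mk_iff' _ _ _ _ _).mpr ⟨1, ?_⟩
        rw [one_smul]
        funext j
        exact σ.commutes (y j)
      rw [e1]
      have hfE : ∀ i, (fE F E i).IsHomogeneous (d i) := fun i => (hF i).map _
      have hPE : Pt [] (fE F E) P := by
        refine ⟨hP0, fun l hl => absurd hl List.not_mem_nil, fun i => ?_⟩
        have := hP i
        rw [← MvPolynomial.aeval_map_algebraMap E P (F i), aeval_eq_eval] at this
        exact this
      have hyPt : Pt [] (fE F E) (fun j => algebraMap (LaurentSeries k) E (y j)) := by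
        refine ⟨hyE, fun l hl => absurd hl List.not_mem_nil, fun i => ?_⟩
        have h1 := MvPolynomial.aeval_algebraMap_apply E y (F i)
        rw [aeval_eq_eval, hy i, map_zero,
          ← MvPolynomial.aeval_map_algebraMap E _ (F i), aeval_eq_eval] at h1
        exact h1
      obtain ⟨D, hD⟩ : ∃ D, D = pt E P hP0 -
        pt E (fun j => algebraMap (LaurentSeries k) E (y j)) hyE := ⟨_, rfl⟩
      rw [← hD]
      obtain ⟨J, hJ⟩ : ∃ J : AddSubgroup ℤ, ∀ m : ℤ, m ∈ J ↔ m • D ∈ Rat F :=
        ⟨(Rat F).comap (zmultiplesHom _ D), fun m => Iff.rfl⟩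
      have h1 : (1 : ℤ) ∈ J := by
        apply CYC.one_mem
        intro p hp
        obtain ⟨e, -, -⟩ := hPUI k E
        obtain ⟨K', iK, iA, iF, hpm, hRE⟩ := hCOF k E e n s p d (fE F E) P
          (fun j => algebraMap (LaurentSeries k) E (y j)) hp hd hfE hdn hP0 hyE hPE.2.2 hyPt.2.2
        refine ⟨Module.finrank E K', hpm, ?_⟩
        rw [hJ, natCast_zsmul]
        let iAK : Algebra (LaurentSeries k) K' :=
          ((algebraMap E K').comp (algebraMap (LaurentSeries k) E)).toAlgebra
        have hST : IsScalarTower (LaurentSeries k) E K' :=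
          IsScalarTower.of_algebraMap_eq (fun _ => rfl)
        have hfd : FiniteDimensional (LaurentSeries k) K' := Module.Finite.trans E K'
        let ι : K' →ₐ[E] AlgebraicClosure (LaurentSeries k) := IsAlgClosed.lift
        let ι' : K' →ₐ[LaurentSeries k] AlgebraicClosure (LaurentSeries k) :=
          ι.restrictScalars (LaurentSeries k)
        let E' : IntermediateField (LaurentSeries k) (AlgebraicClosure (LaurentSeries k)) :=
          ι'.fieldRange
        let φ : K' ≃ₐ[LaurentSeries k] E' := AlgEquiv.ofInjectiveField ι'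
        have hE' : FiniteDimensional (LaurentSeries k) E' :=
          Module.Finite.equiv φ.toLinearEquiv
        have h2 := CYC.re_map (φ : K' →+* E') _ hRE
        have h3 : (fun l => MvPolynomial.map (φ : K' →+* E')
            (MvPolynomial.map (algebraMap E K') (fE F E l))) = fE F E' := by
          funext l
          unfold fE
          rw [MvPolynomial.map_map, MvPolynomial.map_map]
          exact congrArg (fun g => MvPolynomial.map g (F l)) (RingHom.ext fun a => φ.commutes a)
        rw [h3] at h2
        have hinj : ∀ Q : Fin (n + 1) → E, Q ≠ 0 → (fun j => φ (algebraMap E K' (Q j))) ≠ 0 := by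
          intro Q hQ h0
          apply hQ
          funext j
          apply (algebraMap E K').injective
          apply φ.injective
          rw [Pi.zero_apply, map_zero, map_zero]
          exact congrFun h0 j
        have hptE' : ∀ Q : Fin (n + 1) → E, Pt [] (fE F E) Q →
            Pt [] (fE F E') (fun j => φ (algebraMap E K' (Q j))) := by
          intro Q hQ
          refine ⟨hinj Q hQ.1, fun l hl => absurd hl List.not_mem_nil, fun i => ?_⟩
          have h4 := MvPolynomial.map_eval ((φ : K' →+* E').comp (algebraMap E K')) Q (fE F E i)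
          rw [hQ.2.2 i, map_zero] at h4
          have h5 : fE F E' i =
              MvPolynomial.map ((φ : K' →+* E').comp (algebraMap E K')) (fE F E i) := by
            rw [← MvPolynomial.map_map]
            exact (congrFun h3 i).symm
          rw [h5]
          exact h4.symm
        have h4 := re_rat h2 (hptE' _ hPE) (hptE' _ hyPt)
        have h5 := CYC.pt_mul E K' E' φ P hP0 (hinj _ hP0)
        have h6 := CYC.pt_mul E K' E' φ _ hyE (hinj _ hyE)
        rw [hD, smul_sub, ← h5, ← h6]
        exact h4
      rw [hJ, one_smul] at h1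
      exact h1
    | zero =>
      rw [map_zero, zero_smul, sub_zero]
      exact (Rat F).zero_mem
    | add x y _ _ hx hy =>
      have := (Rat F).add_mem hx hy
      rw [map_add, add_smul]
      have e : x + y - (CYC.deg x • Finsupp.single q₀ (1 : ℤ) +
          CYC.deg y • Finsupp.single q₀ (1 : ℤ)) =
          x - CYC.deg x • Finsupp.single q₀ (1 : ℤ) +
          (y - CYC.deg y • Finsupp.single q₀ (1 : ℤ)) := by
        abel
      rw [e]
      exact this
    | neg x _ hx =>
      have := (Rat F).neg_mem hx
      rw [map_neg, neg_smul]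
      have e : -x - -(CYC.deg x • Finsupp.single q₀ (1 : ℤ)) =
          -(x - CYC.deg x • Finsupp.single q₀ (1 : ℤ)) := by
        abel
      rw [e]
      exact this
  intro z hz h0
  have := key z hz
  rw [CYC.deg_eq, h0, zero_smul, sub_zero] at this
  exact this

end Pool.Agent.H86.IX
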