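import Pool.Agent.H15.IX.TE

/-!
# Board idx_modules, row NVN: nonvanishing modulo `p`
-/

set_option autoImplicit false

open Finset Pool.Agent.H15.IX
open MvPolynomial

namespace Pool.Agent.H86.IX.NVN

theorem hc_congr {ι : Type} [Fintype ι] (pos : ι → ℕ) (J : Finset ℕ) (a : ℤ) (N N' : ℕ → ℤ)
    (h : ∀ j ∈ J, N j = N' j) : Hc pos J a N = Hc pos J a N' := by
  unfold Hc
  apply Nat.card_congr
  apply Equiv.subtypeEquivRight
  intro κ
  refine and_congr Iff.rfl ?_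
  refine forall₂_congr fun j hj => ?_
  rw [h j hj]

theorem sA (f : ℕ → ℕ) (r : ℕ) : ∑ i : Fin r, f (i + 1) = ∑ m ∈ Ioo 0 (r + 1), f m := by
  rw [Fin.sum_univ_eq_sum_range (fun i => f (i + 1)) r, Finset.range_eq_Ico,
    Finset.sum_Ico_add' f 0 r 1]
  apply Finset.sum_congr _ fun _ _ => rfl
  ext m
  simp only [Finset.mem_Ico, Finset.mem_Ioo]
  omega

theorem sB (f : ℕ → ℕ) (D : ℕ) : ∑ i : Fin (D - 1), f (i + 1) = ∑ m ∈ Ioo 0 D, f m := by
  rw [sA]
  apply Finset.sum_congr _ fun _ _ => rfl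
  ext m
  simp only [Finset.mem_Ioo]
  omega

theorem sC (f : ℕ → ℕ) (c D : ℕ) :
    ∑ m ∈ Ioo 0 D, f m = ∑ m ∈ Ioo 0 D, (if m ≤ c then f m else 0) + ∑ m ∈ Ioo c D, f m := by
  have h1 : ∑ m ∈ Ioo c D, f m = ∑ m ∈ Ioo 0 D, (if c < m then f m else 0) := by
    rw [← Finset.sum_filter]
    apply Finset.sum_congr _ fun _ _ => rfl
    ext m
    simp only [Finset.mem_filter, Finset.mem_Ioo]
    omega
  rw [h1, ← Finset.sum_add_distrib]
  refine Finset.sum_congr rfl fun m _ => ?_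
  split_ifs <;> omega

theorem sD (f : ℕ → ℕ) (r n : ℕ) : ∑ i, f (ps r n i) =
    (n + 1) * ∑ m ∈ Ioo 0 (r + 1), f m + f (r + 1) := by
  rw [Fintype.sum_sum_type, Fintype.sum_prod_type, ← sA]
  have h1 : ∀ i : Fin r, ∑ v : Fin (n + 1), f (ps r n (Sum.inl (i, v))) = (n + 1) * f (i + 1) := by
    intro i
    have h2 : ∀ v : Fin (n + 1), f (ps r n (Sum.inl (i, v))) = f (i + 1) := fun v => rfl
    rw [Finset.sum_congr rfl fun v _ => h2 v, Finset.sum_const, Finset.card_univ,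
      Fintype.card_fin, smul_eq_mul]
  rw [Finset.sum_congr rfl fun i _ => h1 i, ← Finset.mul_sum]
  congr 1

end Pool.Agent.H86.IX.NVN

namespace Pool.Agent.H86.IX

theorem pf_NVN (hMON : T_MON) (hWN2 : T_WN2) (hWN3 : T_WN3) (hTEL : T_TEL) (hWCL : T_WCL) :
    T_NVN := by
  classical
  intro p n s r d hp hd hI hEv
  obtain ⟨M, hM⟩ : ∃ M : (Σ l : Fin s, Fin (d l * (r + 1) - 1)) → Fin (r + 1) → ℕ,
    ∀ σ j, M σ j = (σ.2 : ℕ) + 1 - d σ.1 * (j : ℕ) := ⟨_, fun _ _ => rfl⟩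
  have hM0 : ∀ σ, M σ 0 = (σ.2 : ℕ) + 1 := by
    intro σ
    rw [hM]
    simp
  obtain ⟨H, hH⟩ : ∃ H : (Fin (r + 1) → ℤ) → ZMod p,
    ∀ A, H A = (Hc (ps r n) (Icc 1 r) (A 0) (ext0 A) : ZMod p) := ⟨_, fun _ => rfl⟩
  obtain ⟨qj, hqj⟩ : ∃ qj : Fin (r + 1) → ℕ,
    ∀ j, qj j = ∑ i ∈ univ.filter (fun i => ps r n i ≤ (j : ℕ)), wp p (ps r n i) :=
    ⟨_, fun _ => rfl⟩
  obtain ⟨Xj, hXj⟩ : ∃ Xj : Fin (r + 1) → ℕ,
    ∀ j, Xj j = ∑ σ ∈ univ.filter (fun σ => M σ j = 0), wp p (M σ 0) := ⟨_, fun _ => rfl⟩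
  obtain ⟨Q, hQ⟩ : ∃ Q : ℕ, Q = (univ.filter (fun j : Fin (r + 1) => j ≠ 0)).sup
    (fun j => qj j - Xj j) := ⟨_, rfl⟩
  have hps : ∀ i, 1 ≤ ps r n i := by
    rintro (z | z)
    · exact Nat.le_add_left _ _
    · exact Nat.le_add_left _ _
  have hJ1 : ∀ j ∈ Icc 1 r, 1 ≤ j := fun j hj => (Finset.mem_Icc.mp hj).1
  obtain ⟨w1, w2, w3, w4, w5, w6, w7⟩ := hWCL p hp
  -- the totals
  obtain ⟨S0, hS0⟩ : ∃ S0 : ℕ, S0 = ∑ σ, wp p (M σ 0) := ⟨_, rfl⟩
  have hS0' : S0 = ∑ l, ∑ m ∈ Ioo 0 (d l * (r + 1)), wp p m := by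
    rw [hS0, Fintype.sum_sigma]
    refine Finset.sum_congr rfl fun l _ => ?_
    rw [← NVN.sB]
    refine Finset.sum_congr rfl fun i _ => ?_
    rw [hM0]
  have hX' : ∀ j, Xj j = ∑ l, ∑ m ∈ Ioo 0 (d l * (r + 1)),
      (if m ≤ d l * (j : ℕ) then wp p m else 0) := by
    intro j
    rw [hXj, Finset.sum_filter, Fintype.sum_sigma]
    refine Finset.sum_congr rfl fun l _ => ?_
    rw [← NVN.sB (fun m => if m ≤ d l * (j : ℕ) then wp p m else 0)]
    refine Finset.sum_congr rfl fun i _ => ?_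
    rw [hM0, hM]
    have h1 : ((i : ℕ) + 1 - d l * (j : ℕ) = 0) ↔ ((i : ℕ) + 1 ≤ d l * (j : ℕ)) :=
      Nat.sub_eq_zero_iff_le
    simp only [h1]
  have hq' : ∀ j : Fin (r + 1), qj j =
      (n + 1) * ∑ m ∈ Ioo 0 (r + 1), (if m ≤ (j : ℕ) then wp p m else 0) := by
    intro j
    rw [hqj, Finset.sum_filter, NVN.sD (fun m => if m ≤ (j : ℕ) then wp p m else 0),
      if_neg (by have := j.2; omega), add_zero]
  have htot : ∑ i, wp p (ps r n i) = (n + 1) * ∑ m ∈ Ioo 0 (r + 1), wp p m + wp p (r + 1) :=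
    NVN.sD (wp p) r n
  have hI0 : S0 < ∑ i, wp p (ps r n i) := by
    have h1 := hI 0 (Nat.zero_le _)
    simp only [mul_zero] at h1
    rw [← hS0', ← htot] at h1
    exact h1
  have hIj : ∀ j : Fin (r + 1), S0 + (qj j - Xj j) < ∑ i, wp p (ps r n i) := by
    intro j
    rcases le_total (qj j) (Xj j) with h | h
    · rw [Nat.sub_eq_zero_of_le h, add_zero]
      exact hI0
    · have h1 := hI j (by have := j.2; omega)
      have h2 : S0 = Xj j + ∑ l, ∑ m ∈ Ioo (d l * (j : ℕ)) (d l * (r + 1)), wp p m := by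
        rw [hS0', hX', ← Finset.sum_add_distrib]
        refine Finset.sum_congr rfl fun l _ => ?_
        exact NVN.sC (wp p) _ _
      have h3 : ∑ i, wp p (ps r n i) =
          qj j + ((n + 1) * ∑ i ∈ Ioo (j : ℕ) (r + 1), wp p i + wp p (r + 1)) := by
        rw [htot, hq', NVN.sC (wp p) (j : ℕ) (r + 1)]
        ring
      rw [h3]
      omega
  have hclaim : ∑ σ, wp p (M σ 0) + Q < ∑ i, wp p (ps r n i) := by
    rw [← hS0]
    have h1 : Q < ∑ i, wp p (ps r n i) - S0 := by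
      rw [hQ, Finset.sup_lt_iff (by rw [bot_eq_zero]; omega)]
      intro j _
      have := hIj j
      omega
    omega
  -- telescoping
  have hT := hTEL p r Q (Σ l : Fin s, Fin (d l * (r + 1) - 1)) M H qj hp
    (fun σ => by rw [hM0]; omega)
    (fun σ j j' _ hjj h => by
      rw [hM] at h ⊢
      have h1 : d σ.1 * (j : ℕ) ≤ d σ.1 * (j' : ℕ) := Nat.mul_le_mul_left _ hjj
      omega)
    (fun j hj A => by
      have hj1 : 1 ≤ (j : ℕ) := by
        rcases Nat.eq_zero_or_pos (j : ℕ) with h | h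
        · exact absurd (Fin.ext h) hj
        · exact h
      have hjr : (j : ℕ) ≤ r := by have := j.2; omega
      have h1 := hWN2 p _ (ps r n) (Icc 1 r) (ext0 A) (j : ℕ) hp hps hJ1
        (Finset.mem_Icc.mpr ⟨hj1, hjr⟩)
      rw [← hqj] at h1
      have h2 := w3 _ (-(A 0)) _ h1
      refine w7 _ _ _ ⟨0, fun a _ => ?_⟩ h2
      simp only [hH]
      have h3 : (A + Pi.single 0 a : Fin (r + 1) → ℤ) 0 = a - -(A 0) := by
        rw [Pi.add_apply, Pi.single_eq_same]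
        ring
      have h4 : (A + Pi.single j 1 + Pi.single 0 a : Fin (r + 1) → ℤ) 0 = a - -(A 0) := by
        rw [Pi.add_apply, Pi.add_apply, Pi.single_eq_same, Pi.single_eq_of_ne (Ne.symm hj)]
        ring
      have h5 : ∀ i ∈ Icc 1 r, ext0 (A + Pi.single 0 a) i = ext0 A i := by
        intro i hi
        obtain ⟨hi1, hi2⟩ := Finset.mem_Icc.mp hi
        unfold ext0
        rw [dif_pos (by omega), dif_pos (by omega), Pi.add_apply, Pi.single_eq_of_ne, add_zero]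
        intro h
        have := congrArg Fin.val h
        simp at this
        omega
      have h6 : ∀ i ∈ Icc 1 r, ext0 (A + Pi.single j 1 + Pi.single 0 a) i =
          Function.update (ext0 A) (j : ℕ) (ext0 A (j : ℕ) + 1) i := by
        intro i hi
        obtain ⟨hi1, hi2⟩ := Finset.mem_Icc.mp hi
        by_cases hij : i = (j : ℕ)
        · rw [hij, Function.update_self]
          unfold ext0
          rw [dif_pos (by omega), dif_pos (by omega), Pi.add_apply, Pi.add_apply]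
          have h7 : (⟨(j : ℕ), by omega⟩ : Fin (r + 1)) = j := Fin.ext rfl
          rw [h7, Pi.single_eq_same, Pi.single_eq_of_ne hj, add_zero]
        · rw [Function.update_of_ne hij]
          unfold ext0
          rw [dif_pos (by omega), dif_pos (by omega), Pi.add_apply, Pi.add_apply,
            Pi.single_eq_of_ne, Pi.single_eq_of_ne, add_zero, add_zero]
          · intro h
            have := congrArg Fin.val h
            simp at this
            omega
          · intro h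
            have := congrArg Fin.val h
            simp at this
            omega
      rw [h3, h4, NVN.hc_congr _ _ _ _ _ h5, NVN.hc_congr _ _ _ _ _ h6])
    (fun j hj => by
      rw [← hXj, hQ]
      exact Finset.le_sup (f := fun j => qj j - Xj j)
        (Finset.mem_filter.mpr ⟨Finset.mem_univ j, hj⟩))
  -- deep degrees
  obtain ⟨b, hb⟩ := hEv
  obtain ⟨b', hb'⟩ : ∃ b' : ℤ, b' = max b 0 := ⟨_, rfl⟩
  have hb1 : b ≤ b' := by rw [hb']; exact le_max_left _ _
  have hb2 : 0 ≤ b' := by rw [hb']; exact le_max_right _ _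
  obtain ⟨g, hg⟩ : ∃ g : ℕ → ℤ, ∀ j, g j = ((r : ℤ) + 1 - j) * ((r : ℤ) + 2 - j) :=
    ⟨_, fun _ => rfl⟩
  obtain ⟨A, hA⟩ : ∃ A : Fin (r + 1) → ℤ, ∀ j, A j = if j = 0 then 0 else b' * g j :=
    ⟨_, fun _ => rfl⟩
  have hA0 : A 0 = 0 := by rw [hA, if_pos rfl]
  have hext : ∀ (a : ℤ) (j : ℕ), 1 ≤ j → j ≤ r + 2 → ext0 (A + Pi.single 0 a) j = b' * g j := by
    intro a j hj1 hj2
    unfold ext0
    by_cases h : j < r + 1
    · have hne : (⟨j, h⟩ : Fin (r + 1)) ≠ 0 := by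
        intro h0
        have := congrArg Fin.val h0
        simp at this
        omega
      rw [dif_pos h, Pi.add_apply, Pi.single_eq_of_ne hne, add_zero, hA, if_neg hne]
    · rw [dif_neg h, hg]
      rcases (by omega : j = r + 1 ∨ j = r + 2) with h1 | h1
      · rw [h1]
        push_cast
        ring
      · rw [h1]
        push_cast
        ring
  have hext0 : ∀ a : ℤ, ext0 (A + Pi.single 0 a) 0 = a := by
    intro a
    unfold ext0
    rw [dif_pos (Nat.succ_pos r)]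
    change (A + Pi.single 0 a : Fin (r + 1) → ℤ) 0 = a
    rw [Pi.add_apply, Pi.single_eq_same, hA0, zero_add]
  obtain ⟨a₀, ha₀⟩ : ∃ a₀ : ℤ, a₀ = b + 2 * (b' * g 1) - b' * g 2 := ⟨_, rfl⟩
  have hdeep : ∀ a : ℤ, a₀ ≤ a → ∀ i, b ≤ Lf r (A + Pi.single 0 a) i := by
    intro a ha i
    change b ≤ ext0 (A + Pi.single 0 a) i - 2 * ext0 (A + Pi.single 0 a) (i + 1) +
      ext0 (A + Pi.single 0 a) (i + 2)
    have hir : (i : ℕ) ≤ r := by have := i.2; omega
    rw [hext a ((i : ℕ) + 1) (by omega) (by omega), hext a ((i : ℕ) + 2) (by omega) (by omega)]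
    rcases Nat.eq_zero_or_pos (i : ℕ) with h | h
    · rw [h, hext0]
      linarith
    · rw [hext a (i : ℕ) h (by omega), hg, hg, hg]
      push_cast
      nlinarith
  have hzero : ∀ a : ℤ, a₀ ≤ a →
      ∑ T : Finset (Σ l : Fin s, Fin (d l * (r + 1) - 1)), (-1 : ZMod p) ^ T.card *
        H (A + Pi.single 0 a - ∑ σ ∈ T, fun j => (M σ j : ℤ)) = 0 := by
    intro a ha
    have h1 := hb (A + Pi.single 0 a) (hdeep a ha)
    have h2 := (ZMod.intCast_zmod_eq_zero_iff_dvd _ p).mpr h1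
    rw [Int.cast_sum] at h2
    rw [← h2]
    refine Finset.sum_congr rfl fun T _ => ?_
    rw [Int.cast_mul, Int.cast_pow, Int.cast_neg, Int.cast_one, Int.cast_natCast, hMON, hH]
    have h3 : (∑ σ ∈ T, fun j : Fin (r + 1) => (M σ j : ℤ)) = ∑ σ ∈ T, fun j : Fin (r + 1) =>
        (((σ.2 : ℕ) + 1 - d σ.1 * (j : ℕ) : ℕ) : ℤ) := by
      refine Finset.sum_congr rfl fun σ _ => ?_
      funext j
      rw [hM]
    rw [h3]
  have hT2 := w2 _ (-1) _ (hT A)
  apply hWN3 p Q _ (Σ l : Fin s, Fin (d l * (r + 1) - 1)) (ps r n) (fun σ => M σ 0) (Icc 1 r) hp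
    hps (fun σ => by rw [hM0]; omega) hclaim
  refine w7 _ _ _ ⟨a₀, fun a ha => ?_⟩ hT2
  simp only [mul_sub, Finset.sum_sub_distrib]
  rw [hzero a ha, mul_zero, zero_sub, neg_mul, one_mul, neg_neg]
  refine Finset.sum_congr rfl fun T _ => ?_
  rw [hH, Pi.single_eq_same, hA0, zero_add]
  congr 2
  apply NVN.hc_congr
  intro j hj
  obtain ⟨hj1, hj2⟩ := Finset.mem_Icc.mp hj
  unfold ext0
  rw [dif_pos (by omega), Pi.single_eq_of_ne]
  intro h
  have := congrArg Fin.val h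
  simp at this
  omega

end Pool.Agent.H86.IX
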